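import Pool.Agent.L0h94.RZ.DefsF

/-!
# Project RZ: modules RLI and UP
-/

set_option autoImplicit false

namespace Pool.Agent.LLead.RZ

open Finset Pool.Agent.W262.RK Pool.Agent.W307.RT Pool.Agent.L0h94.RZ Pool.Agent.L0h94.FT

/-- a curve determines the differences of its roots -/
theorem rli : S_RLI := by
  rintro ⟨A, B⟩ ⟨a, b⟩ ⟨a', b'⟩ ⟨e, h1, h2, h3, h4, h5⟩ ⟨f, k1, k2, k3, k4, k5⟩
  simp only at h1 h2 h3 h4 h5 k1 k2 k3 k4 k5
  have hP : ∀ x : ℤ, (x - e) * (x - (e + a)) * (x - (e + a + b)) = x ^ 3 + A * x + B := by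
    intro x
    rw [h4, h5]
    linear_combination (-x ^ 2) * h3
  have kP : ∀ x : ℤ, (x - f) * (x - (f + a')) * (x - (f + a' + b')) = x ^ 3 + A * x + B := by
    intro x
    rw [k4, k5]
    linear_combination (-x ^ 2) * k3
  have key : ∀ x : ℤ, x = f ∨ x = f + a' ∨ x = f + a' + b' →
      x = e ∨ x = e + a ∨ x = e + a + b := by
    intro x hx
    have h0 : (x - e) * (x - (e + a)) * (x - (e + a + b)) = 0 := by
      rw [hP x, ← kP x]
      rcases hx with h | h | h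
      · rw [h]; ring
      · rw [h]; ring
      · rw [h]; ring
    rcases mul_eq_zero.mp h0 with h | h
    · rcases mul_eq_zero.mp h with h | h
      · left; linarith
      · right; left; linarith
    · right; right; linarith
  have q1 := key f (Or.inl rfl)
  have q2 := key (f + a') (Or.inr (Or.inl rfl))
  have q3 := key (f + a' + b') (Or.inr (Or.inr rfl))
  clear hP kP key h4 h5 k4 k5
  have : a = a' ∧ b = b' := by omega
  exact Prod.ext this.1 this.2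

/-- upper bound for the number of the curves -/
theorem up : S_UP := by
  refine ⟨2, by norm_num, fun H hH => ?_⟩
  set t : ℝ := (7 * (H : ℝ)) ^ (1 / 6 : ℝ) with ht
  have hH0 : (0 : ℝ) ≤ 7 * (H : ℝ) := by positivity
  have ht0 : 0 ≤ t := Real.rpow_nonneg hH0 _
  have ht2 : t ^ 2 = (7 * (H : ℝ)) ^ (1 / 3 : ℝ) := by
    rw [ht, ← Real.rpow_natCast, ← Real.rpow_mul hH0]
    norm_num
  have ht6 : t ^ 6 = 7 * (H : ℝ) := by
    rw [ht, ← Real.rpow_natCast, ← Real.rpow_mul hH0]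
    norm_num
  have hle : ∀ n : ℕ, n ^ 6 ≤ 7 * H → n ≤ ⌊t⌋₊ := by
    intro n hn
    apply Nat.le_floor
    have h1 : (n : ℝ) ^ 6 ≤ t ^ 6 := by
      rw [ht6]
      exact_mod_cast hn
    exact le_of_pow_le_pow_left₀ (by norm_num) ht0 h1
  have hinj : Set.InjOn Fr (Cv 2 H : Set (ℤ × ℤ)) := by
    intro x hx x' hx' h
    have h1 := Fr_rl (mem_coe.1 hx)
    have h2 := Fr_rl (mem_coe.1 hx')
    rw [← h] at h2
    exact rl_inj h1 h2
  have hmaps : ∀ x ∈ Cv 2 H, Fr x ∈ (Icc 1 ⌊t⌋₊) ×ˢ (Icc 1 ⌊t⌋₊) := by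
    intro x hx
    have hx' := hx
    unfold Cv at hx'
    simp only [mem_filter] at hx'
    have hr := Fr_rl hx
    obtain ⟨s1, s2⟩ := rl_size hr hx'.2.2.1
    obtain ⟨e, a1, a2, -⟩ := hr
    rw [mem_product, mem_Icc, mem_Icc]
    exact ⟨⟨a1, hle _ s1⟩, ⟨a2, hle _ s2⟩⟩
  have hcard := card_le_card_of_injOn Fr hmaps hinj
  rw [card_product, Nat.card_Icc, Nat.add_sub_cancel] at hcard
  have h7 : (7 : ℝ) ^ (1 / 3 : ℝ) ≤ 2 := by
    have : (7 : ℝ) ^ (1 / 3 : ℝ) ≤ 8 ^ (1 / 3 : ℝ) :=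
      Real.rpow_le_rpow (by norm_num) (by norm_num) (by norm_num)
    refine this.trans (le_of_eq ?_)
    rw [show (8 : ℝ) = 2 ^ (3 : ℝ) by norm_num, ← Real.rpow_mul (by norm_num)]
    norm_num
  calc ((Cv 2 H).card : ℝ) ≤ ((⌊t⌋₊ * ⌊t⌋₊ : ℕ) : ℝ) := by exact_mod_cast hcard
    _ = (⌊t⌋₊ : ℝ) * (⌊t⌋₊ : ℝ) := by push_cast; ring
    _ ≤ t * t := mul_le_mul (Nat.floor_le ht0) (Nat.floor_le ht0) (Nat.cast_nonneg _) ht0
    _ = t ^ 2 := by ring
    _ = (7 * (H : ℝ)) ^ (1 / 3 : ℝ) := ht2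
    _ = 7 ^ (1 / 3 : ℝ) * (H : ℝ) ^ (1 / 3 : ℝ) := Real.mul_rpow (by norm_num) (Nat.cast_nonneg _)
    _ ≤ 2 * (H : ℝ) ^ (1 / 3 : ℝ) :=
      mul_le_mul_of_nonneg_right h7 (Real.rpow_nonneg (Nat.cast_nonneg _) _)

end Pool.Agent.LLead.RZ
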