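import Pool.Agent.L0h94.RZ.DefsS
import Pool.Agent.L0h94.RZ.Bas
import Pool.Agent.L0h94.RZ.Zero
import Pool.Agent.L0h19.RZ.Fin
import Pool.Agent.Y700.ShaVC

/-!
# Project RZ, second part: modules LR, ZS, TR, MAIN2
-/

set_option autoImplicit false

namespace Pool.Agent.LLead.RZ

open Finset Pool.Agent.W262.RK Pool.Agent.W307.RT Pool.Agent.L0h94.RZ

lemma mo_pos {o : Bool} {u b w : ℕ} (g : Gd u b w) : 0 < mo o u w ∧ mo o u w < b := by
  have h1 := g.hb
  have h2 := g.hu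
  have h3 := g.hw
  unfold mo
  split_ifs <;> constructor <;> push_cast <;> omega

/-- the condition at infinity -/
theorem lr : S_LR := by
  intro o u b w g e1 e2 e3 hne hsq ⟨x, y, hy, heq, s1, s2⟩
  obtain ⟨h0, h1⟩ := mo_pos (o := o) g
  set m := mo o u w
  have hm : (0 : ℝ) < m := by exact_mod_cast h0
  have hmb : (m : ℝ) < ((b : ℤ) : ℝ) := by exact_mod_cast h1
  have hy2 : 0 < y ^ 2 := by positivity
  have hx : 0 < x := by
    by_contra hx
    push Not at hx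
    have a1 : x - (m : ℝ) < 0 := by linarith
    have a2 : x - ((b : ℤ) : ℝ) < 0 := by linarith
    have a3 : 0 < (x - (m : ℝ)) * (x - ((b : ℤ) : ℝ)) := mul_pos_of_neg_of_neg a1 a2
    have a4 : x * ((x - (m : ℝ)) * (x - ((b : ℤ) : ℝ))) ≤ 0 :=
      mul_nonpos_of_nonpos_of_nonneg hx a3.le
    rw [heq] at hy2
    linarith
  have hne1 : e1 ≠ 0 := fun h => hne (by rw [h]; ring)
  have hpos1 : 0 < e1 := by
    obtain ⟨r, hr⟩ := s1
    have a1 : 0 ≤ x * (e1 : ℝ) := by rw [hr]; exact mul_self_nonneg r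
    have a2 : 0 ≤ (e1 : ℝ) := nonneg_of_mul_nonneg_right a1 hx
    have a3 : 0 ≤ e1 := by exact_mod_cast a2
    omega
  refine ⟨hpos1, ?_⟩
  obtain ⟨r, hr⟩ := hsq
  have a1 : 0 ≤ e1 * e2 * e3 := by rw [hr]; exact mul_self_nonneg r
  have a2 : 0 < e1 * (e2 * e3) := by
    rw [← mul_assoc]
    exact lt_of_le_of_ne a1 (Ne.symm hne)
  by_contra h
  push Not at h
  have a3 := mul_nonpos_of_nonneg_of_nonpos hpos1.le h
  linarith

/-- one of the two curves has rank 0 and no elements of order two in its group -/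
theorem zs (hD : S_DESC) (hR : S_ROWS) (hS : S_SYM) (hSh : S_SHA) : S_ZS := by
  rintro u b w ⟨g, p, q, r, -, -, -, -, -, -, hc⟩
  have h3 : ∀ o, cork o (u * b * w).primeFactors (clf u b) (tf u b w) ≤ 3 := fun o => lin3 (hc o)
  have h := par hR hS g
  have hex : ∃ o, cork o (u * b * w).primeFactors (clf u b) (tf u b w) ≤ 2 := by
    by_contra hcon
    push Not at hcon
    have e1 : cork false (u * b * w).primeFactors (clf u b) (tf u b w) = 3 :=
      le_antisymm (h3 _) (hcon _)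
    have e2 : cork true (u * b * w).primeFactors (clf u b) (tf u b w) = 3 :=
      le_antisymm (h3 _) (hcon _)
    rw [e1, e2] at h
    exact absurd h (by decide)
  obtain ⟨o, ho⟩ := hex
  refine ⟨o, ?_, hSh o u b w g ho⟩
  by_contra hne
  have := hD o u b w g hne
  omega

/-- transfer to the minimal model -/
theorem tr : S_TR := by
  rintro ⟨A, B⟩ ⟨a, b⟩ ⟨e, h1, h2, h3, h4, h5⟩ h0
  simp only at h1 h2 h3 h4 h5 h0 ⊢
  have h3q : (3 : ℚ) * e + 2 * a + b = 0 := by exact_mod_cast h3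
  have hAq : (A : ℚ) = e * (e + a) + e * (e + a + b) + (e + a) * (e + a + b) := by
    exact_mod_cast h4
  have hBq : (B : ℚ) = -(e * (e + a) * (e + a + b)) := by exact_mod_cast h5
  have ha : (0 : ℚ) < a := by exact_mod_cast h1
  have hb : (0 : ℚ) < b := by exact_mod_cast h2
  have hbb : (b : ℚ) = -3 * e - 2 * a := by linarith
  have hVR : Pool.Agent.Y700.VR (EAB (a : ℤ) ((a : ℤ) + b)) (Sh A B) 1 (-(e : ℚ)) 0 0 := by
    constructor <;> (try unfold EAB) <;> (try unfold Sh) <;> simp <;> (try push_cast) <;>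
      (try rw [hAq]) <;> (try rw [hBq]) <;> (try rw [hbb]) <;> (try ring)
  have hD : (Sh A B).Δ ≠ 0 := by
    have e1 : (Sh A B).Δ = 16 * (a * b * (a + b)) ^ 2 := by
      unfold Sh
      simp only [WeierstrassCurve.Δ, WeierstrassCurve.b₂, WeierstrassCurve.b₄,
        WeierstrassCurve.b₆, WeierstrassCurve.b₈]
      rw [hAq, hBq, hbb]
      ring
    rw [e1]
    positivity
  intro c hc
  exact Pool.Agent.Y700.sha_two hVR hD h0 c hc

open Classical in
/-- a positive proportion of the curves -/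
theorem main2 (hC : S_CRV) (hR : S_RLI) (hU : S_UP) (hZ : S_ZS) (hT : S_TR) (hN : S_CNT) :
    S_MAIN2 := by
  obtain ⟨C, hC0, hUp⟩ := hU
  obtain ⟨c0, hc0, X0, hlow⟩ := hN
  refine ⟨c0 / (4 * C), by positivity, (X0 + 1) ^ 6, fun H hH => ?_⟩
  set X := Nat.findGreatest (fun x => x ^ 6 ≤ H) H with hX
  have hX6 : X ^ 6 ≤ H := Nat.findGreatest_spec (P := fun x => x ^ 6 ≤ H) (Nat.zero_le H)
    (by simp)
  have hH1 : 1 ≤ H := le_trans (Nat.one_le_pow _ _ (by omega)) hH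
  have hXlarge : X0 + 1 ≤ X := by
    refine Nat.le_findGreatest ?_ hH
    exact (Nat.le_self_pow (by norm_num) _).trans hH
  have hXlt : H < (X + 1) ^ 6 := by
    by_contra hcon
    push Not at hcon
    have h1 : X + 1 ≤ X := Nat.le_findGreatest ((Nat.le_self_pow (by norm_num) _).trans hcon) hcon
    omega
  have hH3 : (H : ℝ) ^ (1 / 3 : ℝ) ≤ 4 * (X : ℝ) ^ 2 := by
    have h1 : (H : ℝ) ≤ (2 * (X : ℝ)) ^ 6 := by
      have h2 : H ≤ (2 * X) ^ 6 := hXlt.le.trans (Nat.pow_le_pow_left (by omega) 6)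
      exact_mod_cast h2
    calc (H : ℝ) ^ (1 / 3 : ℝ) ≤ ((2 * (X : ℝ)) ^ 6) ^ (1 / 3 : ℝ) :=
          Real.rpow_le_rpow (by positivity) h1 (by norm_num)
      _ = (2 * (X : ℝ)) ^ 2 := by
          rw [← Real.rpow_natCast, ← Real.rpow_mul (by positivity), ← Real.rpow_natCast]
          norm_num
      _ = _ := by ring
  set Good := ((Icc 1 X) ×ˢ (Icc 1 X)).filter (fun t : ℕ × ℕ => t.1 + 4 * t.2 ≤ X ∧
    Ok t.1 (t.1 + 4 * t.2) t.2) with hGood
  have hg : c0 * (X : ℝ) ^ 2 ≤ (Good.card : ℝ) := hlow X (by omega)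
  set Z := (Cv 2 H).filter (fun t : ℤ × ℤ => Module.finrank ℤ (Sh t.1 t.2).toAffine.Point = 0 ∧
    No2 (Sh t.1 t.2)) with hZd
  -- the curve of a good pair
  have hex : ∀ t ∈ Good, ∃ q : Bool × (ℤ × ℤ), q.2 ∈ Z ∧
      Pool.Agent.L0h94.FT.Rl q.2 ((mo q.1 t.1 t.2).toNat,
        (((t.1 + 4 * t.2 : ℕ) : ℤ) - mo q.1 t.1 t.2).toNat) := by
    intro t ht
    rw [hGood, mem_filter] at ht
    obtain ⟨-, hle, hok⟩ := ht
    obtain ⟨o, ho, ho2⟩ := hZ t.1 (t.1 + 4 * t.2) t.2 hok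
    obtain ⟨c, hc, hRl⟩ := hC o t.1 (t.1 + 4 * t.2) t.2 H hok.1
      ((Nat.pow_le_pow_left hle 6).trans hX6)
    refine ⟨(o, c), ?_, hRl⟩
    rw [hZd, mem_filter]
    refine ⟨hc, FinM.rank0 hok.1 hRl ho, hT _ _ hRl ?_⟩
    have e1 : (((mo o t.1 t.2).toNat : ℕ) : ℤ) = mo o t.1 t.2 :=
      Int.toNat_of_nonneg (FinM.mo_nn o t.1 t.2)
    have e2 : (((((t.1 + 4 * t.2 : ℕ) : ℤ) - mo o t.1 t.2).toNat : ℕ) : ℤ) =
        ((t.1 + 4 * t.2 : ℕ) : ℤ) - mo o t.1 t.2 := Int.toNat_of_nonneg (FinM.mo_le hok.1)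
    have e3 : EAB (((mo o t.1 t.2).toNat : ℕ) : ℤ) ((((mo o t.1 t.2).toNat : ℕ) : ℤ) +
        (((((t.1 + 4 * t.2 : ℕ) : ℤ) - mo o t.1 t.2).toNat : ℕ) : ℤ)) =
        EAB (mo o t.1 t.2) ((t.1 + 4 * t.2 : ℕ) : ℤ) := by
      rw [e1, e2]
      congr 1
      ring
    rw [e3]
    exact ho2
  choose! q hq1 hq2 using hex
  have hcard : Good.card ≤ Z.card := by
    refine card_le_card_of_injOn (fun t => (q t).2) (fun t ht => hq1 t ht) ?_
    intro t ht t' ht' htt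
    have h1 := hq2 t ht
    have h2 := hq2 t' ht'
    simp only at htt
    rw [← htt] at h2
    have h3 := hR _ _ _ h1 h2
    rw [mem_coe, hGood, mem_filter] at ht ht'
    have h4 := FinM.inj ht.2.2.1 ht'.2.2.1 h3
    exact Prod.ext h4.1 h4.2
  have h5 := hUp H hH1
  have h6 : (Good.card : ℝ) ≤ Z.card := by exact_mod_cast hcard
  rw [div_mul_eq_mul_div, div_le_iff₀ (by positivity)]
  calc c0 * ((Cv 2 H).card : ℝ) ≤ c0 * (C * (H : ℝ) ^ (1 / 3 : ℝ)) :=
        mul_le_mul_of_nonneg_left h5 hc0.le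
    _ ≤ c0 * (C * (4 * (X : ℝ) ^ 2)) := by
        apply mul_le_mul_of_nonneg_left _ hc0.le
        exact mul_le_mul_of_nonneg_left hH3 hC0.le
    _ = (c0 * (X : ℝ) ^ 2) * (4 * C) := by ring
    _ ≤ (Good.card : ℝ) * (4 * C) := mul_le_mul_of_nonneg_right hg (by positivity)
    _ ≤ (Z.card : ℝ) * (4 * C) := mul_le_mul_of_nonneg_right h6 (by positivity)

end Pool.Agent.LLead.RZ
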